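import Pool.Agent.Helper11.PC.Defs

/-!
# Packet PC HOW: Howson's theorem
-/

namespace Pool.Agent.Helper7.PC.HOW

universe v

open FreeGroup

variable {X : Type v}

/-- each prefix of the list is close to the subgroup -/
def Good (P : Subgroup (FreeGroup X)) (B : Set (FreeGroup X)) (L : List (X × Bool)) : Prop :=
  ∀ z, z <+: L → ∃ p ∈ P, p⁻¹ * mk z ∈ B

theorem prefix_append_cases {α : Type*} {z L₁ L₂ : List α} (h : z <+: L₁ ++ L₂) :
    z <+: L₁ ∨ ∃ t, z = L₁ ++ t ∧ t <+: L₂ := by
  rcases List.prefix_or_prefix_of_prefix h (List.prefix_append L₁ L₂) with h1 | h1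
  · exact Or.inl h1
  · obtain ⟨t, rfl⟩ := h1
    exact Or.inr ⟨t, rfl, (List.prefix_append_right_inj L₁).1 h⟩

theorem good_step {P : Subgroup (FreeGroup X)} {B : Set (FreeGroup X)} {L L' : List (X × Bool)}
    (h : Red.Step L L') (hL : Good P B L) : Good P B L' := by
  obtain ⟨⟩ | ⟨L₁, L₂, x, b⟩ := h
  rename_i L₁ L₂ x b
  intro z hz
  rcases prefix_append_cases hz with h1 | ⟨t, h1, h2⟩
  · exact hL z (h1.trans (List.prefix_append _ _))
  · subst h1
    have h3 : L₁ ++ (x, b) :: (x, !b) :: t <+: L₁ ++ (x, b) :: (x, !b) :: L₂ := by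
      rw [List.prefix_append_right_inj]
      exact (List.cons_prefix_cons.2 ⟨rfl, List.cons_prefix_cons.2 ⟨rfl, h2⟩⟩)
    obtain ⟨p, hp, hpB⟩ := hL _ h3
    refine ⟨p, hp, ?_⟩
    have h4 : (mk (L₁ ++ (x, b) :: (x, !b) :: t) : FreeGroup X) = mk (L₁ ++ t) :=
      Quot.sound Red.Step.not
    rwa [h4] at hpB

theorem good_red {P : Subgroup (FreeGroup X)} {B : Set (FreeGroup X)} {L L' : List (X × Bool)}
    (h : Red L L') (hL : Good P B L) : Good P B L' := by
  induction h with
  | refl => exact hL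
  | tail _ h2 ih => exact good_step h2 ih

theorem exists_good (P : Subgroup (FreeGroup X)) (hP : P.FG) [DecidableEq X] :
    ∃ (B : Set (FreeGroup X)) (A : Set (X × Bool)), B.Finite ∧ A.Finite ∧ (1 : FreeGroup X) ∈ B ∧
      ∀ x ∈ P, Good P B x.toWord ∧ ∀ a ∈ x.toWord, a ∈ A := by
  obtain ⟨S, hS, hSf⟩ := (Subgroup.fg_iff P).1 hP
  set S' : Set (FreeGroup X) := S ∪ S⁻¹ with hS'
  have hS'f : S'.Finite := hSf.union hSf.inv
  set B : Set (FreeGroup X) := insert 1 (⋃ y ∈ S', mk '' {t | t <+: y.toWord}) with hB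
  set A : Set (X × Bool) := ⋃ y ∈ S', {a | a ∈ y.toWord} with hA
  refine ⟨B, A, ?_, ?_, Set.mem_insert _ _, ?_⟩
  · refine Set.Finite.insert _ (hS'f.biUnion fun y _ ↦ Set.Finite.image _ ?_)
    have : {t | t <+: y.toWord} = {t | t ∈ y.toWord.inits} := by
      ext t
      simp
    rw [this]
    exact List.finite_toSet _
  · exact hS'f.biUnion fun y _ ↦ List.finite_toSet _
  · -- every element of `P` is a product
    have key : ∀ l : List (FreeGroup X), (∀ y ∈ l, y ∈ S') →
        Good P B (l.map toWord).flatten ∧ (∀ a ∈ (l.map toWord).flatten, a ∈ A) ∧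
          mk ((l.map toWord).flatten) = l.prod := by
      intro l
      induction l with
      | nil =>
        intro _
        refine ⟨?_, ?_, ?_⟩
        · intro z hz
          have : z = [] := by simpa using hz
          subst this
          exact ⟨1, P.one_mem, by rw [inv_one, one_mul]; exact Set.mem_insert _ _⟩
        · intro a ha
          simp at ha
        · simp [one_eq_mk]
      | cons y l ih =>
        intro hl
        obtain ⟨h1, h2, h3⟩ := ih fun y hy ↦ hl y (List.mem_cons_of_mem _ hy)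
        have hy : y ∈ S' := hl y List.mem_cons_self
        have hyP : y ∈ P := by
          rw [← hS]
          rcases hy with h | h
          · exact Subgroup.subset_closure h
          · exact (Subgroup.inv_mem_iff _).1 (Subgroup.subset_closure h)
        rw [List.map_cons, List.flatten_cons]
        refine ⟨?_, ?_, ?_⟩
        · intro z hz
          rcases prefix_append_cases hz with h4 | ⟨t, h4, h5⟩
          · refine ⟨1, P.one_mem, ?_⟩
            rw [inv_one, one_mul]
            refine Set.mem_insert_of_mem _ (Set.mem_biUnion hy ⟨z, h4, rfl⟩)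
          · subst h4
            obtain ⟨p, hp, hpB⟩ := h1 t h5
            refine ⟨y * p, P.mul_mem hyP hp, ?_⟩
            have : (y * p)⁻¹ * mk (y.toWord ++ t) = p⁻¹ * mk t := by
              rw [← mul_mk, mk_toWord]
              group
            rwa [this]
        · intro a ha
          rcases List.mem_append.1 ha with h4 | h4
          · exact Set.mem_biUnion hy h4
          · exact h2 a h4
        · rw [← mul_mk, mk_toWord, h3, List.prod_cons]
    intro x hx
    rw [← hS] at hx
    have hx' : x ∈ Submonoid.closure (S ∪ S⁻¹) := by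
      rw [← Subgroup.closure_toSubmonoid]
      exact hx
    obtain ⟨l, hl, hlx⟩ := Submonoid.exists_list_of_mem_closure hx'
    obtain ⟨h1, h2, h3⟩ := key l hl
    rw [hlx] at h3
    have h4 : x.toWord = reduce ((l.map toWord).flatten) := by rw [← h3, toWord_mk]
    have h5 : Red ((l.map toWord).flatten) x.toWord := by rw [h4]; exact reduce.red
    exact ⟨good_red h5 h1, fun a ha ↦ h2 a (h5.sublist.subset ha)⟩

/-- **Howson's theorem.** -/
theorem how {X : Type v} (P Q : Subgroup (FreeGroup X)) (hP : P.FG) (hQ : Q.FG) :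
    (P ⊓ Q).FG := by
  classical
  obtain ⟨B₁, A, hB₁, hA, h1B₁, hg₁⟩ := exists_good P hP
  obtain ⟨B₂, _, hB₂, _, h1B₂, hg₂⟩ := exists_good Q hQ
  -- the classes
  let C : FreeGroup X × FreeGroup X → Set (FreeGroup X) := fun α ↦
    {z | z * α.1⁻¹ ∈ P ∧ z * α.2⁻¹ ∈ Q}
  have hr : ∃ r : FreeGroup X × FreeGroup X → FreeGroup X, r (1, 1) = 1 ∧
      ∀ α z, z ∈ C α → r α ∈ C α := by
    refine ⟨fun α ↦ if α = (1, 1) then 1 else if h : (C α).Nonempty then h.some else 1, by simp, ?_⟩
    intro α z hz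
    by_cases hα : α = (1, 1)
    · subst hα
      simp only [if_true]
      exact ⟨by simp [P.one_mem], by simp [Q.one_mem]⟩
    · simp only [if_neg hα]
      rw [dif_pos ⟨z, hz⟩]
      exact Set.Nonempty.some_mem _
  obtain ⟨r, hr1, hrC⟩ := hr
  have hquot : ∀ α z, z ∈ C α → z * (r α)⁻¹ ∈ P ⊓ Q := by
    intro α z hz
    obtain ⟨h1, h2⟩ := hrC α z hz
    constructor
    · have := P.mul_mem hz.1 (P.inv_mem h1)
      simpa [mul_assoc] using this
    · have := Q.mul_mem hz.2 (Q.inv_mem h2)
      simpa [mul_assoc] using this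
  set BB : Set (FreeGroup X × FreeGroup X) := B₁ ×ˢ B₂ with hBB
  have hBBf : BB.Finite := hB₁.prod hB₂
  set T : Set (FreeGroup X) := ((fun α ↦ (r α)⁻¹) '' BB ∪
    (fun q : (FreeGroup X × FreeGroup X) × (FreeGroup X × FreeGroup X) × (X × Bool) ↦
      r q.1 * mk [q.2.2] * (r q.2.1)⁻¹) '' (BB ×ˢ BB ×ˢ A)) ∩ ((P ⊓ Q : Subgroup (FreeGroup X)) : Set (FreeGroup X)) with hT
  have hTf : T.Finite := ((hBBf.image _).union ((hBBf.prod (hBBf.prod hA)).image _)).inter_of_left _
  refine (Subgroup.fg_iff _).2 ⟨T, le_antisymm ?_ ?_, hTf⟩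
  · rw [Subgroup.closure_le]
    exact Set.inter_subset_right
  · intro x hx
    have hP1 := hg₁ x hx.1
    have hQ1 := hg₂ x hx.2
    have main : ∀ z : List (X × Bool), z <+: x.toWord → ∀ α ∈ BB, mk z ∈ C α →
        mk z * (r α)⁻¹ ∈ Subgroup.closure T := by
      intro z
      induction z using List.reverseRecOn with
      | nil =>
        intro _ α hα hz
        refine Subgroup.subset_closure ⟨Or.inl ⟨α, hα, ?_⟩, hquot α _ hz⟩
        change (r α)⁻¹ = mk [] * (r α)⁻¹
        rw [← one_eq_mk, one_mul]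
      | append_singleton z a ih =>
        intro hz β hβ hzβ
        have hz0 : z <+: x.toWord := (List.prefix_append z [a]).trans hz
        obtain ⟨p, hp, hpB⟩ := hP1.1 z hz0
        obtain ⟨q, hq, hqB⟩ := hQ1.1 z hz0
        set α : FreeGroup X × FreeGroup X := (p⁻¹ * mk z, q⁻¹ * mk z) with hα
        have hαB : α ∈ BB := ⟨hpB, hqB⟩
        have hzα : mk z ∈ C α := by
          constructor
          · change mk z * (p⁻¹ * mk z)⁻¹ ∈ P
            rwa [mul_inv_rev, inv_inv, mul_inv_cancel_left]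
          · change mk z * (q⁻¹ * mk z)⁻¹ ∈ Q
            rwa [mul_inv_rev, inv_inv, mul_inv_cancel_left]
        have h1 := ih hz0 α hαB hzα
        have haA : a ∈ A := hP1.2 a (hz.subset (by simp))
        have h2 : r α * mk [a] * (r β)⁻¹ ∈ Subgroup.closure T := by
          refine Subgroup.subset_closure ⟨Or.inr ⟨(α, β, a), ⟨hαB, hβ, haA⟩, rfl⟩, ?_⟩
          have h3 := (P ⊓ Q).mul_mem ((P ⊓ Q).inv_mem (hquot α _ hzα)) (hquot β _ hzβ)
          have h4 : r α * mk [a] * (r β)⁻¹ = (mk z * (r α)⁻¹)⁻¹ * (mk (z ++ [a]) * (r β)⁻¹) := by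
            rw [← mul_mk]
            group
          rw [h4]
          exact h3
        have h5 : mk (z ++ [a]) * (r β)⁻¹ = (mk z * (r α)⁻¹) * (r α * mk [a] * (r β)⁻¹) := by
          rw [← mul_mk]
          group
        rw [h5]
        exact Subgroup.mul_mem _ h1 h2
    have hfin := main x.toWord (List.prefix_refl _) (1, 1) ⟨h1B₁, h1B₂⟩ (by
      rw [mk_toWord]
      exact ⟨by simpa using hx.1, by simpa using hx.2⟩)
    rw [hr1, mk_toWord, inv_one, mul_one] at hfin
    exact hfin

end Pool.Agent.Helper7.PC.HOW
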